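import Pool.Agent.ATP.Stmts
import Pool.Agent.Helper65_AT3.QT1
import Pool.Agent.Helper65_AT2.TYA
import Pool.Agent.Helper62_AT3.LCJ
import Pool.Agent.Helper74_D2.Bld

/-!
# ATP, row PQZ: the blocks of `N(Q)/Q`
-/

open scoped BigOperators

noncomputable section

namespace Pool.Agent.PP.TP.H31

open Pool.Agent.Helper51_AWC Pool.Agent.Helper79_WRA Pool.Agent.PP Pool.Agent.PP.KF
open Pool.Agent.PP.K9 Pool.Agent.PP.K9.H97 Pool.Agent.PP.H75 Pool.Agent.PP.T3 Pool.Agent.PP.T2
open Pool.Agent.PP.TB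

attribute [local instance] Ideal.Quotient.field

set_option linter.unusedSectionVars false

section fix

variable {F G : Type} [Field F] [Group G] [Finite G]

/-- the blocks of `C` under `E` -/
abbrev TT (C : Subgroup G) (E : G → F) : Type := {b : G → F // Bx C b ∧ mulF E b = b}

/-- an idempotent of `F C` is the sum of the blocks under it -/
theorem sum_blocks {C : Subgroup G} {E : G → F} (hE : Ix C E) :
    Finite (TT C E) ∧ ∀ [Fintype (TT C E)], ∑ b : TT C E, (b : G → F) = E := by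
  classical
  obtain ⟨m, f, h1, h2, h3⟩ := CD2.H74.dec (fun t : C => E t) hE.idem
  have hres : ∀ t, (fun x : C => H75.ext0 C (f t) x) = f t := fun t =>
    funext (H75.ext0_apply C (f t))
  have hBx : ∀ t, Bx C (H75.ext0 C (f t)) := fun t =>
    ⟨H75.ext0_supp C (f t), by rw [hres]; exact (h1 t).1⟩
  have hund : ∀ t, mulF E (H75.ext0 C (f t)) = H75.ext0 C (f t) := by
    intro t
    apply eq_of_res (mulF_supp C hE.supp (H75.ext0_supp C (f t))) (H75.ext0_supp C (f t))
    rw [mulF_res C _ hE.supp, hres, (h1 t).2]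
  have hsum : ∑ t, H75.ext0 C (f t) = E := by
    apply eq_of_res (N := C)
    · intro x hx
      rw [Finset.sum_apply]
      exact Finset.sum_eq_zero fun t _ => H75.ext0_supp C (f t) x hx
    · exact hE.supp
    · rw [← h3]
      funext x
      rw [Finset.sum_apply, Finset.sum_apply]
      exact Finset.sum_congr rfl fun t _ => H75.ext0_apply C (f t) x
  let Φ : Fin m → TT C E := fun t => ⟨H75.ext0 C (f t), hBx t, hund t⟩
  have hinj : Function.Injective Φ := by
    intro t s hts
    by_contra hne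
    have h4 : H75.ext0 C (f t) = H75.ext0 C (f s) := congrArg Subtype.val hts
    have h5 : f t = f s := by rw [← hres t, ← hres s, h4]
    have h6 := h2 t s hne
    rw [← h5, (h1 t).1.1.2] at h6
    exact (h1 t).1.2.1 h6
  have hsurj : Function.Surjective Φ := by
    rintro ⟨b, hb, hEb⟩
    by_contra hne
    push Not at hne
    apply hb.ne
    rw [← hEb, ← hsum]
    have h7 : ∀ s : Finset (Fin m), mulF (∑ t ∈ s, H75.ext0 C (f t)) b = 0 := by
      intro s
      induction s using Finset.induction_on with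
      | empty => rw [Finset.sum_empty, H75.mulF_zero_left]
      | insert a s ha ih =>
        rw [Finset.sum_insert ha, K9.H24.mulF_add_l, ih, add_zero]
        rcases (hBx a).dich hb with h8 | h8
        · exact absurd (Subtype.ext h8) (hne a)
        · exact h8
    exact h7 _
  have hbij : Function.Bijective Φ := ⟨hinj, hsurj⟩
  refine ⟨Finite.of_surjective Φ hsurj, ?_⟩
  intro _
  have h9 : ∑ t, H75.ext0 C (f t) = ∑ b : TT C E, (b : G → F) :=
    Fintype.sum_bijective Φ hbij _ _ fun t => rfl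
  exact h9.symm.trans hsum

/-- an additive functional which is invariant under the `ℓ`-group `R` and does not vanish on `E` does
not vanish on a block under `E` which is invariant under `R` -/
theorem fix_blk {ℓ : ℕ} (hF : GoodF ℓ F) {C : Subgroup G} {E : G → F} (hE : Ix C E)
    {R : Subgroup G} (hR : IsPGroup ℓ R) (hRC : ∀ x ∈ R, ∀ y, y ∈ C ↔ x⁻¹ * y * x ∈ C)
    (hRE : ∀ x ∈ R, cj x E = E) {V : Type} [AddCommGroup V] (hV : ∀ v : V, ℓ • v = 0)
    (L : (G → F) → V) (hL0 : L 0 = 0) (hL : ∀ a b, L (a + b) = L a + L b)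
    (hLR : ∀ x ∈ R, ∀ b, L (cj x b) = L b) (h : L E ≠ 0) :
    ∃ b : G → F, Bx C b ∧ mulF E b = b ∧ (∀ x ∈ R, cj x b = b) ∧ L b ≠ 0 := by
  classical
  have hfact : Fact ℓ.Prime := ⟨hF.prime⟩
  obtain ⟨hfin, hsum⟩ := sum_blocks hE
  have hft := Fintype.ofFinite (TT C E)
  have hs := @hsum hft
  have hLs : ∀ s : Finset (TT C E), L (∑ b ∈ s, (b : G → F)) = ∑ b ∈ s, L b := by
    intro s
    induction s using Finset.induction_on with
    | empty => rw [Finset.sum_empty, Finset.sum_empty, hL0]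
    | insert a s ha ih => rw [Finset.sum_insert ha, Finset.sum_insert ha, hL, ih]
  let act : MulAction R (TT C E) :=
    { smul := fun x b => ⟨cj (x : G) b.1, by
        refine ⟨T3.H62.bx_cj (hRC x x.2) b.2.1, ?_⟩
        have h9 := cj_mulF (x : G) E b.1
        rw [b.2.2, hRE x x.2] at h9
        exact h9.symm⟩
      one_smul := fun b => by
        apply Subtype.ext
        exact cj_one b.1
      mul_smul := fun x y b => by
        apply Subtype.ext
        exact (cj_cj (x : G) (y : G) b.1).symm }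
  have h1 := Pool.Agent.PP.H74.orbit_sum hR hV (fun b : TT C E => L b.1) (fun x b => hLR x x.2 b.1)
  rw [← hLs, hs] at h1
  have h2 : ∃ b ∈ Finset.univ.filter (fun b : TT C E => ∀ r : R, r • b = b), L b.1 ≠ 0 := by
    by_contra hne
    push Not at hne
    rw [h1, Finset.sum_eq_zero hne] at h
    exact h rfl
  obtain ⟨b, hb, hb0⟩ := h2
  refine ⟨b.1, b.2.1, b.2.2, ?_, hb0⟩
  intro x hx
  exact congrArg Subtype.val ((Finset.mem_filter.1 hb).2 ⟨x, hx⟩)

theorem br_add (P : Subgroup G) (a b : G → F) : br P (a + b) = br P a + br P b := by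
  funext t
  by_cases ht : t ∈ Subgroup.centralizer (P : Set G)
  · rw [Pi.add_apply, br_in _ ht, br_in _ ht, br_in _ ht, Pi.add_apply]
  · rw [Pi.add_apply, br_out _ ht, br_out _ ht, br_out _ ht, add_zero]

theorem br_zero (P : Subgroup G) : br P (0 : G → F) = 0 := by
  funext t
  by_cases ht : t ∈ Subgroup.centralizer (P : Set G)
  · rw [br_in _ ht]
  · rw [br_out _ ht]
    rfl

theorem br_cj_mem {P : Subgroup G} {y : G} (hy : y ∈ P) (a : G → F) : br P (cj y a) = br P a := by
  funext t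
  by_cases ht : t ∈ Subgroup.centralizer (P : Set G)
  · rw [br_in _ ht, br_in _ ht]
    change a (y⁻¹ * t * y) = a t
    have h1 := Subgroup.mem_centralizer_iff.1 ht y hy
    rw [mul_assoc, ← h1, inv_mul_cancel_left]
  · rw [br_out _ ht, br_out _ ht]

variable {A : Type} [Group A] [Finite A]

/-- `br_δ` of the image of an invariant function, `δ` the image of `R` -/
theorem br_push {ℓ : ℕ} (hF : GoodF ℓ F) {N R : Subgroup G} (hRN : R ≤ N) (hR : IsPGroup ℓ R)
    (π : N →* A) {a : G → F} (ha : ∀ x ∈ R, cj x a = a) :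
    br ((R.subgroupOf N).map π) (push π (fun t : N => a t)) = push π (fun t : N => br R a t) := by
  classical
  have hRp : IsPGroup ℓ (R.subgroupOf N) :=
    hR.comap_of_injective N.subtype N.subtype_injective
  have hbr : br (R.subgroupOf N) (fun t : N => a t) = fun t : N => br R a t := by
    funext t
    by_cases hc : (t : G) ∈ Subgroup.centralizer (R : Set G)
    · rw [H66.br_of_mem hc, H66.br_of_mem ((cent_sub hRN t).2 hc)]
    · rw [H66.br_of_not_mem hc, H66.br_of_not_mem (fun h => hc ((cent_sub hRN t).1 h))]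
  funext y
  by_cases hy : y ∈ Subgroup.centralizer (((R.subgroupOf N).map π : Subgroup A) : Set A)
  · rw [H66.br_of_mem hy, T2.H65.push_br_inv hF hRp (e := fun t : N => a t) (by
      intro q hq t
      exact (cj_eq_iff _ _).1 (ha q (Subgroup.mem_subgroupOf.1 hq)) t) hy, hbr]
  · rw [H66.br_of_not_mem hy]
    have := Fintype.ofFinite N
    rw [push_eq]
    symm
    apply Finset.sum_eq_zero
    intro x _
    by_cases hx : π x = y
    · rw [if_pos hx]
      by_cases hc : (x : G) ∈ Subgroup.centralizer (R : Set G)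
      · exfalso
        apply hy
        rw [Subgroup.mem_centralizer_iff]
        rintro _ ⟨r, hr, rfl⟩
        rw [← hx, ← map_mul, ← map_mul]
        congr 1
        apply Subtype.ext
        exact Subgroup.mem_centralizer_iff.1 hc r (Subgroup.mem_subgroupOf.1 hr)
      · exact H66.br_of_not_mem hc
    · rw [if_neg hx]

end fix

/-- row PQZ -/
theorem pqz (pin : PinStmt) (pun : PunStmt) (psg : T3.PsgStmt) : PqzStmt := by
  intro ℓ _ M _ hM G _ _ e he Q hQp A _ _ π hπ hker f₁ hf₁ hff δ hδ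
  classical
  have hF : GoodF ℓ (FF M) := H50.fld ℓ Fact.out M hM
  have hch := hF.char
  obtain ⟨C, hC⟩ : ∃ C : Subgroup G, C = Subgroup.centralizer (Q : Set G) := ⟨_, rfl⟩
  have hCN : C ≤ Subgroup.normalizer (Q : Set G) := by
    rw [hC]
    exact Subgroup.centralizer_le_normalizer _
  have hQN : Q ≤ Subgroup.normalizer (Q : Set G) := Subgroup.le_normalizer
  have hmk : ∀ x : Subgroup.normalizer (Q : Set G), π x = 1 ↔ (x : G) ∈ Q := by
    intro x
    rw [← MonoidHom.mem_ker, hker, Subgroup.mem_subgroupOf]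
  have hkp : IsPGroup ℓ π.ker := by
    rw [hker]
    exact hQp.comap_of_injective (Subgroup.normalizer (Q : Set G)).subtype
      (Subgroup.normalizer (Q : Set G)).subtype_injective
  -- the preimage of `δ`
  obtain ⟨R, hR⟩ : ∃ R : Subgroup G,
    R = (δ.comap π).map (Subgroup.normalizer (Q : Set G)).subtype := ⟨_, rfl⟩
  have hRN : R ≤ Subgroup.normalizer (Q : Set G) := by
    rw [hR]
    rintro _ ⟨x, _, rfl⟩
    exact x.2
  have hRs : R.subgroupOf (Subgroup.normalizer (Q : Set G)) = δ.comap π := by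
    rw [hR]
    exact Subgroup.comap_map_eq_self_of_injective
      (Subgroup.normalizer (Q : Set G)).subtype_injective _
  have hRmap : (R.subgroupOf (Subgroup.normalizer (Q : Set G))).map π = δ := by
    rw [hRs, Subgroup.map_comap_eq_self_of_surjective hπ]
  have hRmem : ∀ x : Subgroup.normalizer (Q : Set G), (x : G) ∈ R ↔ π x ∈ δ := by
    intro x
    rw [← Subgroup.mem_subgroupOf, hRs, Subgroup.mem_comap]
  have hRp : IsPGroup ℓ R := by
    rw [hR]
    exact (hδ.pg.comap_of_ker_isPGroup π hkp).map _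
  have hQR : Q ≤ R := by
    intro x hx
    have h1 := (hRmem ⟨x, hQN hx⟩).2 (by
      rw [(hmk ⟨x, hQN hx⟩).2 hx]
      exact δ.one_mem)
    exact h1
  have hconj : ∀ n ∈ Subgroup.normalizer (Q : Set G), ∀ c ∈ C, n * c * n⁻¹ ∈ C := by
    intro n hn c hc
    rw [hC, Subgroup.mem_centralizer_iff] at hc ⊢
    intro v hv
    have h1 : n⁻¹ * v * n ∈ Q := by
      have h2 := (Subgroup.mem_normalizer_iff.1 (inv_mem hn) v).1 hv
      rwa [inv_inv] at h2
    have h2 := hc _ h1
    calc v * (n * c * n⁻¹) = n * ((n⁻¹ * v * n) * c) * n⁻¹ := by group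
      _ = n * (c * (n⁻¹ * v * n)) * n⁻¹ := by rw [h2]
      _ = (n * c * n⁻¹) * v := by group
  have hconj' : ∀ n ∈ Subgroup.normalizer (Q : Set G), ∀ y, y ∈ C ↔ n⁻¹ * y * n ∈ C := by
    intro n hn y
    constructor
    · intro h
      have h1 := hconj n⁻¹ (inv_mem hn) y h
      rwa [inv_inv] at h1
    · intro h
      have h1 := hconj n hn _ h
      have h2 : n * (n⁻¹ * y * n) * n⁻¹ = y := by group
      rwa [h2] at h1
  -- the idempotent `br_Q(e)`
  have hbs : ∀ x, x ∉ C → br Q e x = 0 := by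
    intro x hx
    rw [hC] at hx
    exact br_out e hx
  have hIQ : Ix C (br Q e) := ⟨hbs, (H20.brm ℓ (FF M) hF G Q C hQp hC.ge hCN).2.2 e he⟩
  have hbrN : IsIdem (fun t : Subgroup.normalizer (Q : Set G) => br Q e t) :=
    (H20.brm ℓ (FF M) hF G Q _ hQp (by rw [← hC]; exact hCN) le_rfl).2.2 e he
  have hbrcj : ∀ x ∈ R, cj x (br Q e) = br Q e := by
    intro x hx
    rw [cj_eq_iff]
    intro t
    by_cases ht : t ∈ C
    · have h1 := hconj x (hRN hx) t ht
      rw [hC] at h1 ht
      rw [br_in _ h1, br_in _ ht]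
      exact he.1 _ _
    · have h1 : x * t * x⁻¹ ∉ C := by
        intro h
        have h2 := (hconj' x (hRN hx) _).1 h
        have h3 : x⁻¹ * (x * t * x⁻¹) * x = t := by group
        rw [h3] at h2
        exact ht h2
      rw [hbs _ h1, hbs _ ht]
  -- step 1
  obtain ⟨f', hf'⟩ : ∃ f' : A → FF M,
    f' = push π (fun t : Subgroup.normalizer (Q : Set G) => br Q e t) := ⟨_, rfl⟩
  have hf'I : IsIdem f' := by
    rw [hf']
    exact push_isIdem hπ hbrN
  rw [← hf'] at hff
  have hV : ∀ v : A → FF M, ℓ • v = 0 := by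
    intro v
    funext t
    rw [Pi.smul_apply, nsmul_eq_mul, CharP.cast_eq_zero, zero_mul]
    rfl
  have hδ0 : br δ f₁ ≠ 0 := C2.H3.br_ne_of_gd hδ.gd
  obtain ⟨b, hbC, hbe, hbR, hb0⟩ := fix_blk hF hIQ hRp (fun x hx => hconj' x (hRN hx)) hbrcj hV
    (fun a : G → FF M =>
      mulF (br δ (push π (fun t : Subgroup.normalizer (Q : Set G) => a t))) (br δ f₁))
    (by
      change mulF (br δ (push π (0 : Subgroup.normalizer (Q : Set G) → FF M))) (br δ f₁) = 0
      rw [push_zero, br_zero, mulF_zero_left])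
    (fun a b => by
      change mulF (br δ (push π ((fun t : Subgroup.normalizer (Q : Set G) => a t) +
        (fun t : Subgroup.normalizer (Q : Set G) => b t)))) (br δ f₁) = _
      rw [T3.H43.push_add, br_add, K9.H24.mulF_add_l])
    (fun x hx a => by
      change mulF (br δ (push π (cj (⟨x, hRN hx⟩ : Subgroup.normalizer (Q : Set G))
        (fun t : Subgroup.normalizer (Q : Set G) => a t)))) (br δ f₁) = _
      rw [T3.H43.push_cj, br_cj_mem ((hRmem ⟨x, hRN hx⟩).1 hx)])
    (by
      change mulF (br δ (push π (fun t : Subgroup.normalizer (Q : Set G) => br Q e t)))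
        (br δ f₁) ≠ 0
      rw [← hf', ← H66.br_mulF hF hδ.pg (H66.IsCl.inv hf'I.1 δ) (H66.IsCl.inv hf₁.1.1 δ), hff]
      exact hδ0)
  change mulF (br δ (push π (fun t : Subgroup.normalizer (Q : Set G) => b t))) (br δ f₁) ≠ 0
    at hb0
  have hbp : br δ (push π (fun t : Subgroup.normalizer (Q : Set G) => b t)) =
      push π (fun t : Subgroup.normalizer (Q : Set G) => br R b t) := by
    have h1 := br_push hF hRN hRp π hbR
    rwa [hRmap] at h1
  -- step 2
  have hinvR : H66.Inv R b := fun p hp t => (cj_eq_iff p b).1 (hbR p hp) t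
  have hCR : Subgroup.centralizer (R : Set G) ≤ C := by
    rw [hC]
    exact Subgroup.centralizer_le hQR
  have hIR : Ix (Subgroup.centralizer (R : Set G)) (br R b) := by
    refine ⟨fun x hx => br_out b hx, ?_, ?_⟩
    · intro x y
      change br R b ((y : G) * x * (y : G)⁻¹) = br R b x
      rw [br_in _ (mul_mem (mul_mem y.2 x.2) (inv_mem y.2)), br_in _ x.2]
      exact C2.H3.ix_inv hbC.ix (hCR y.2) x
    · rw [← mulF_res _ _ (fun x hx => br_out b hx), ← H66.br_mulF hF hRp hinvR hinvR, hbC.mul]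
  obtain ⟨b₃, hb₃C, hb₃b, -, hb₃0⟩ := fix_blk hF hIR (R := (⊥ : Subgroup G)) IsPGroup.of_bot
    (by
      intro x hx y
      rw [Subgroup.mem_bot.1 hx, inv_one, one_mul, mul_one])
    (by
      intro x hx
      rw [Subgroup.mem_bot.1 hx, cj_one]) hV
    (fun a : G → FF M =>
      mulF (push π (fun t : Subgroup.normalizer (Q : Set G) => a t)) (br δ f₁))
    (by
      change mulF (push π (0 : Subgroup.normalizer (Q : Set G) → FF M)) (br δ f₁) = 0
      rw [push_zero, mulF_zero_left])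
    (fun a b => by
      change mulF (push π ((fun t : Subgroup.normalizer (Q : Set G) => a t) +
        (fun t : Subgroup.normalizer (Q : Set G) => b t))) (br δ f₁) = _
      rw [T3.H43.push_add, K9.H24.mulF_add_l])
    (by
      intro x hx a
      rw [Subgroup.mem_bot.1 hx, cj_one])
    (by
      change mulF (push π (fun t : Subgroup.normalizer (Q : Set G) => br R b t)) (br δ f₁) ≠ 0
      rw [← hbp]
      exact hb0)
  change mulF (push π (fun t : Subgroup.normalizer (Q : Set G) => b₃ t)) (br δ f₁) ≠ 0 at hb₃0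
  have hPb : Pq ℓ Q b := ⟨hQp, by rw [← hC]; exact hbC⟩
  have hPb₃ : Pq ℓ R b₃ := ⟨hRp, hb₃C⟩
  have hNl : Nl Q b R b₃ := ⟨hQR, hRN, hbR, hb₃b⟩
  have heR : mulF (br R e) b₃ = b₃ := by
    have h1 := congrArg (br R) hbe
    rw [H66.br_mulF hF hRp (fun p hp t => (cj_eq_iff p _).1 (hbrcj p hp) t) hinvR,
      C2.H3.br_br hQR] at h1
    rw [← hb₃b, ← H20.mulF_assoc, h1]
  refine ⟨R, b, b₃, hQR, hRN, hRmap, hPb, hPb₃, hNl, hbe, heR, hb₃0, ?_⟩
  -- step 3
  intro D γ hDγ hle
  obtain ⟨S, hS⟩ : ∃ S : Subgroup G, S = D ⊓ C := ⟨_, rfl⟩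
  rw [← hC, ← hS]
  have hRD : R ≤ D := hle.sub
  have hQD : Q ≤ D := hQR.trans hRD
  have hSD : S ≤ D := by
    rw [hS]
    exact inf_le_left
  have hSC : S ≤ C := by
    rw [hS]
    exact inf_le_right
  have hSp : IsPGroup ℓ S := hDγ.pg.to_le hSD
  obtain ⟨s, hPs, hQs, -⟩ := pin ℓ (FF M) hF G D γ hDγ Q b hPb ((Le.one hPb hPb₃ hNl).trans hle)
    (S ⊔ Q) le_sup_right (sup_le hSD hQD)
  have hNs := (pun ℓ (FF M) hF G (S ⊔ Q) s hPs Q b hPb hQs).2
    (sup_le (hSC.trans hCN) hQN)
  have hbS : br (S ⊔ Q) b ≠ 0 := by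
    intro h
    apply hPs.blk.ne
    rw [← hNs.und, h, mulF_zero_left]
  obtain ⟨x, hx, hx0⟩ := C2.H3.gd_of_br' hbS
  have hxC : x ∈ C := by
    by_contra h
    exact hx0 (hbC.supp x h)
  -- the homomorphism on the centraliser
  obtain ⟨q, hq⟩ : ∃ q : C →* A, q = π.comp (Subgroup.inclusion hCN) := ⟨_, rfl⟩
  have hqk : ∀ c : C, c ∈ q.ker ↔ (c : G) ∈ Q := by
    intro c
    rw [MonoidHom.mem_ker, hq]
    exact hmk _
  have hqc : q.ker ≤ Subgroup.center C := by
    intro c hc
    rw [Subgroup.mem_center_iff]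
    intro d
    apply Subtype.ext
    change (d : G) * c = c * d
    have h1 := hC.le d.2
    rw [Subgroup.mem_centralizer_iff] at h1
    exact (h1 c ((hqk c).1 hc)).symm
  have hqp : IsPGroup ℓ q.ker := by
    refine hQp.of_injective ((Subgroup.subtype C).comp q.ker.subtype |>.codRestrict Q ?_) ?_
    · intro x
      exact (hqk x.1).1 x.2
    · intro a b hab
      apply Subtype.ext
      apply Subtype.ext
      exact congrArg (fun t : Q => (t : G)) hab
  have hnorm : q.range.Normal := by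
    refine ⟨?_⟩
    rintro _ ⟨c, rfl⟩ a
    obtain ⟨n, rfl⟩ := hπ a
    refine ⟨⟨(n : G) * c * (n : G)⁻¹, hconj n n.2 c c.2⟩, ?_⟩
    rw [hq]
    change π (Subgroup.inclusion hCN _) = π n * π (Subgroup.inclusion hCN c) * (π n)⁻¹
    rw [← map_inv, ← map_mul, ← map_mul]
    rfl
  obtain ⟨g', hg'⟩ : ∃ g' : A → FF M, g' = push q (fun t : C => b t) := ⟨_, rfl⟩
  have hg'π : push π (fun t : Subgroup.normalizer (Q : Set G) => b t) = g' := by
    rw [hg', T3.H43.push_res hCN π hbC.supp, ← hq]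
  have hBg : Bx q.range g' := by
    rw [hg']
    exact T3.H43.push_blk psg hF q hqc hqp hbC.blk
  have hBd : H75.Bd q.range g' := ⟨hnorm, hBg.supp, hBg.blk⟩
  have hfg : mulF f₁ g' ≠ 0 := by
    intro h
    apply hb0
    have h1 : H66.Inv δ g' := by
      rw [← hg'π, ← hRmap]
      apply T2.H65.push_inv
      intro r hr t
      exact hinvR r (Subgroup.mem_subgroupOf.1 hr) t
    rw [hg'π, ← H66.br_mulF hF hδ.pg h1 (H66.IsCl.inv hf₁.1.1 δ), ← mulF_comm_cl hf₁.1.1, h,
      br_zero]
  -- the image of `S`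
  obtain ⟨S', hS'⟩ : ∃ S' : Subgroup A,
    S' = (S.subgroupOf (Subgroup.normalizer (Q : Set G))).map π := ⟨_, rfl⟩
  have hS'p : IsPGroup ℓ S' := by
    rw [hS']
    exact (hSp.comap_of_injective (Subgroup.normalizer (Q : Set G)).subtype
      (Subgroup.normalizer (Q : Set G)).subtype_injective).map π
  have hS'C : S' ≤ q.range := by
    rw [hS']
    rintro _ ⟨w, hw, rfl⟩
    refine ⟨⟨w, hSC (Subgroup.mem_subgroupOf.1 hw)⟩, ?_⟩
    rw [hq]
    rfl
  have hgS' : Gd g' S' := by
    have h1 : Gd (fun t : C => b t) (S.subgroupOf C) := by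
      refine ⟨⟨x, hxC⟩, (cent_sub hSC _).2 ?_, hx0⟩
      rw [Subgroup.mem_centralizer_iff] at hx ⊢
      intro y hy
      exact hx y ((le_sup_left : S ≤ S ⊔ Q) hy)
    have hkr : IsPGroup ℓ q.rangeRestrict.ker := by
      rw [MonoidHom.ker_rangeRestrict]
      exact hqp
    have h2 := (K9.H02.pug ℓ (FF M) hF C q.range q.rangeRestrict q.rangeRestrict_surjective
      hkr (fun t : C => b t) hbC.blk.1 (S.subgroupOf C) (by
        rw [MonoidHom.ker_rangeRestrict]
        intro c hc
        rw [Subgroup.mem_subgroupOf, hS]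
        exact ⟨hQD ((hqk c).1 hc), c.2⟩)
      (hSp.comap_of_injective C.subtype C.subtype_injective)).1 h1
    obtain ⟨y, hy, hy0⟩ := h2
    rw [← T3.H65.push_range, ← hg'] at hy0
    refine ⟨y, ?_, hy0⟩
    rw [Subgroup.mem_centralizer_iff] at hy ⊢
    rw [hS']
    rintro _ ⟨w, hw, rfl⟩
    have hwP : (w : G) ∈ S := Subgroup.mem_subgroupOf.1 hw
    have h3 := hy (q.rangeRestrict ⟨w, hSC hwP⟩) ⟨⟨w, hSC hwP⟩, Subgroup.mem_subgroupOf.2 hwP, rfl⟩
    have h4 : ((q.rangeRestrict ⟨w, hSC hwP⟩ : q.range) : A) = π w := by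
      change q ⟨w, hSC hwP⟩ = π w
      rw [hq]
      rfl
    have h5 := congrArg (fun t : q.range => (t : A)) h3
    change ((q.rangeRestrict ⟨w, hSC hwP⟩ : q.range) : A) * y =
      y * ((q.rangeRestrict ⟨w, hSC hwP⟩ : q.range) : A) at h5
    rwa [h4] at h5
  have hfS' : Gd f₁ S' := T3.H65.cover_gd hF hBd hf₁.1 hfg hS'C hS'p hgS'
  obtain ⟨k, hk⟩ := (K9.H69.fmg ℓ M hM A f₁ hf₁ δ hδ).1 S' hS'p hfS'
  -- counting
  obtain ⟨T, hT⟩ : ∃ T : Subgroup A, T = δ ⊓ q.range := ⟨_, rfl⟩
  have hTS : T ≤ S' := by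
    rw [hT]
    rintro y ⟨hy1, ⟨c, hc⟩⟩
    have hcR : (c : G) ∈ R := by
      have h1 := (hRmem (Subgroup.inclusion hCN c)).2 (by
        have h2 : π (Subgroup.inclusion hCN c) = y := by
          rw [← hc, hq]
          rfl
        rw [h2]
        exact hy1)
      exact h1
    rw [hS']
    refine ⟨Subgroup.inclusion hCN c, Subgroup.mem_subgroupOf.2 ?_, ?_⟩
    · rw [hS]
      exact ⟨hRD hcR, c.2⟩
    · rw [← hc, hq]
      rfl
  have hcard : Nat.card S' ≤ Nat.card T := by
    have h1 : S' ≤ conjS k T := by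
      intro y hy
      rw [mem_conjS, hT]
      refine ⟨mem_conjS.1 (hk hy), ?_⟩
      have h2 := hnorm.conj_mem y (hS'C hy) k⁻¹
      rwa [inv_inv] at h2
    calc Nat.card S' ≤ Nat.card (conjS k T) := Subgroup.card_le_of_le h1
      _ = Nat.card T := Pool.Agent.Helper51_AWC.card_conjS k T
  have hTS' : T = S' := Subgroup.eq_of_le_of_card_ge hTS hcard
  intro z hz
  have h1 : π ⟨z, hCN (hSC hz)⟩ ∈ S' := by
    rw [hS']
    exact ⟨_, Subgroup.mem_subgroupOf.2 hz, rfl⟩
  rw [← hTS', hT] at h1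
  exact (hRmem ⟨z, hCN (hSC hz)⟩).2 h1.1

end Pool.Agent.PP.TP.H31
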